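import Mathlib

open Set MeasureTheory Filter Topology

namespace GB

theorem top_inter {X : Type*} [TopologicalSpace X] (A B : Set X)
    (hA : interior (closure A) = A) (hB : interior (closure B) = B) :
    interior (closure (A ∩ B)) = A ∩ B := by
  have hAo : IsOpen A := by rw [← hA]; exact isOpen_interior
  have hBo : IsOpen B := by rw [← hB]; exact isOpen_interior
  apply Subset.antisymm
  · intro x hx
    constructor
    · rw [← hA]
      exact interior_mono (closure_mono inter_subset_left) hx
    · rw [← hB]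
      exact interior_mono (closure_mono inter_subset_right) hx
  · exact interior_maximal subset_closure (hAo.inter hBo)

/-- If `x` is interior to `closure (A ∪ B)` and `closure A` is disjoint from `closure B`,
with `A` regular open, then `x ∈ closure A` implies `x ∈ A`. -/
theorem top_two {X : Type*} [TopologicalSpace X] (A B : Set X) (hA : interior (closure A) = A)
    (hdis : Disjoint (closure A) (closure B)) (x : X) (hx : x ∈ interior (closure (A ∪ B)))
    (hxA : x ∈ closure A) : x ∈ A := by
  rw [← hA]
  have hsub : interior (closure (A ∪ B)) ∩ (closure B)ᶜ ⊆ closure A := by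
    rintro y ⟨hy, hyB⟩
    have := interior_subset hy
    rw [closure_union] at this
    rcases this with h | h
    · exact h
    · exact absurd h hyB
  have hopen : IsOpen (interior (closure (A ∪ B)) ∩ (closure B)ᶜ) :=
    isOpen_interior.inter isClosed_closure.isOpen_compl
  exact interior_maximal hsub hopen ⟨hx, fun h => (disjoint_left.1 hdis) hxA h⟩

theorem top_finite {X ι : Type*} [TopologicalSpace X] [Finite ι] (E : ι → Set X)
    (hE : ∀ i, interior (closure (E i)) = E i)
    (hdis : Pairwise fun i j => Disjoint (closure (E i)) (closure (E j))) :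
    interior (closure (⋃ i, E i)) = ⋃ i, E i := by
  have hEo : ∀ i, IsOpen (E i) := fun i => by rw [← hE i]; exact isOpen_interior
  apply Subset.antisymm
  · intro x hx
    have hx' := interior_subset hx
    rw [closure_iUnion_of_finite, mem_iUnion] at hx'
    obtain ⟨i, hi⟩ := hx'
    refine mem_iUnion.2 ⟨i, ?_⟩
    have hsplit : (⋃ j, E j) = E i ∪ ⋃ j : {j // j ≠ i}, E j := by
      ext y
      simp only [mem_iUnion, mem_union]
      constructor
      · rintro ⟨j, hj⟩
        by_cases h : j = i
        · subst h; exact Or.inl hj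
        · exact Or.inr ⟨⟨j, h⟩, hj⟩
      · rintro (h | ⟨j, hj⟩)
        · exact ⟨i, h⟩
        · exact ⟨j, hj⟩
    rw [hsplit] at hx
    refine top_two (E i) _ (hE i) ?_ x hx hi
    rw [closure_iUnion_of_finite, disjoint_iUnion_right]
    intro j
    exact hdis j.2.symm
  · exact interior_maximal subset_closure (isOpen_iUnion hEo)

section layers

variable (E O : ℕ → Set ℝ)

theorem layers_anti (hO : ∀ k, closure (O (k + 1)) ⊆ O k) : Antitone O :=
  antitone_nat_of_succ_le fun k => subset_closure.trans (hO k)

theorem layers_tail (hEO : ∀ k, closure (E k) ⊆ O k) (hO : ∀ k, closure (O (k + 1)) ⊆ O k)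
    (k : ℕ) : closure (⋃ j : {j : ℕ // k ≤ j}, E j) ⊆ O k := by
  have hanti := layers_anti O hO
  have h1 : (⋃ j : {j : ℕ // k ≤ j}, E j) ⊆ E k ∪ O (k + 1) := by
    intro y hy
    obtain ⟨⟨j, hj⟩, hyj⟩ := mem_iUnion.1 hy
    rcases eq_or_lt_of_le hj with h | h
    · subst h; exact Or.inl hyj
    · exact Or.inr (hanti h (hEO j (subset_closure hyj)))
  refine (closure_mono h1).trans ?_
  rw [closure_union]
  exact union_subset (hEO k) (hO k)

theorem layers_closure (hEO : ∀ k, closure (E k) ⊆ O k)
    (hO : ∀ k, closure (O (k + 1)) ⊆ O k) :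
    closure (⋃ k, E k) ⊆ (⋃ k, closure (E k)) ∪ ⋂ k, O k := by
  intro x hx
  by_cases hxO : x ∈ ⋂ k, O k
  · exact Or.inr hxO
  left
  rw [mem_iInter, not_forall] at hxO
  obtain ⟨m, hm⟩ := hxO
  have hsplit : (⋃ j, E j) = (⋃ j : Fin m, E j) ∪ ⋃ j : {j : ℕ // m ≤ j}, E j := by
    ext y
    simp only [mem_iUnion, mem_union]
    constructor
    · rintro ⟨j, hj⟩
      by_cases h : j < m
      · exact Or.inl ⟨⟨j, h⟩, hj⟩
      · exact Or.inr ⟨⟨j, not_lt.1 h⟩, hj⟩
    · rintro (⟨j, hj⟩ | ⟨j, hj⟩)
      · exact ⟨j, hj⟩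
      · exact ⟨j, hj⟩
  rw [hsplit, closure_union] at hx
  rcases hx with h | h
  · rw [closure_iUnion_of_finite] at h
    obtain ⟨j, hj⟩ := mem_iUnion.1 h
    exact mem_iUnion.2 ⟨j, hj⟩
  · exact absurd (layers_tail E O hEO hO m h) hm

theorem layers_mem (hE : ∀ k, interior (closure (E k)) = E k)
    (hEO : ∀ k, closure (E k) ⊆ O k)
    (hdis : ∀ k, Disjoint (closure (E k)) (O (k + 1)))
    (hO : ∀ k, closure (O (k + 1)) ⊆ O k) (x : ℝ) (hx : x ∈ interior (closure (⋃ k, E k)))
    (k : ℕ) (hk : x ∈ closure (E k)) : x ∈ E k := by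
  have hanti := layers_anti O hO
  have hsplit : (⋃ j, E j) = E k ∪ ((⋃ j : Fin k, E j) ∪ ⋃ j : {j : ℕ // k + 1 ≤ j}, E j) := by
    ext y
    simp only [mem_iUnion, mem_union]
    constructor
    · rintro ⟨j, hj⟩
      rcases lt_trichotomy j k with h | h | h
      · exact Or.inr (Or.inl ⟨⟨j, h⟩, hj⟩)
      · subst h; exact Or.inl hj
      · exact Or.inr (Or.inr ⟨⟨j, h⟩, hj⟩)
    · rintro (h | ⟨j, hj⟩ | ⟨j, hj⟩)
      · exact ⟨k, h⟩
      · exact ⟨j, hj⟩
      · exact ⟨j, hj⟩
  rw [hsplit] at hx
  refine top_two (E k) _ (hE k) ?_ x hx hk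
  rw [closure_union, disjoint_union_right, closure_iUnion_of_finite, disjoint_iUnion_right]
  refine ⟨fun j => ?_, ?_⟩
  · exact ((hdis j).mono_right ((hEO k).trans (hanti j.2))).symm
  · exact (hdis k).mono_right (layers_tail E O hEO hO (k + 1))

theorem top_layers (hE : ∀ k, interior (closure (E k)) = E k)
    (hfr : ∀ k, volume (frontier (E k)) = 0) (hEO : ∀ k, closure (E k) ⊆ O k)
    (hdis : ∀ k, Disjoint (closure (E k)) (O (k + 1)))
    (hO : ∀ k, closure (O (k + 1)) ⊆ O k) (hnull : volume (⋂ k, O k) = 0) :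
    interior (closure (⋃ k, E k)) = ⋃ k, E k ∧ volume (frontier (⋃ k, E k)) = 0 := by
  have hEo : ∀ i, IsOpen (E i) := fun i => by rw [← hE i]; exact isOpen_interior
  have hUo : IsOpen (⋃ k, E k) := isOpen_iUnion hEo
  have hcl := layers_closure E O hEO hO
  have hmem := layers_mem E O hE hEO hdis hO
  constructor
  · apply Subset.antisymm
    · intro x hx
      have hx' := hcl (interior_subset hx)
      rcases hx' with h | h
      · obtain ⟨k, hk⟩ := mem_iUnion.1 h
        exact mem_iUnion.2 ⟨k, hmem x hx k hk⟩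
      · by_contra hnot
        obtain ⟨ε, hε, hball⟩ := Metric.isOpen_iff.1 isOpen_interior x hx
        have hno : ∀ k, ∀ y ∈ Metric.ball x ε, y ∉ closure (E k) := by
          intro k y hy hyk
          have hyE : y ∈ E k := hmem y (hball hy) k hyk
          have hpre : IsPreconnected (Metric.ball x ε) :=
            (convex_ball x ε).isPreconnected
          have hcover : Metric.ball x ε ⊆ E k ∪ (closure (E k))ᶜ := by
            intro z hz
            by_cases hzk : z ∈ closure (E k)
            · exact Or.inl (hmem z (hball hz) k hzk)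
            · exact Or.inr hzk
          have hsub : Metric.ball x ε ⊆ E k := by
            apply hpre.subset_left_of_subset_union (hEo k) isClosed_closure.isOpen_compl
              _ hcover ⟨y, hy, hyE⟩
            exact disjoint_compl_right.mono_left subset_closure
          exact hnot (mem_iUnion.2 ⟨k, hsub (Metric.mem_ball_self hε)⟩)
        have hsubO : Metric.ball x ε ⊆ ⋂ k, O k := by
          intro y hy
          rcases hcl (interior_subset (hball hy)) with h | h
          · obtain ⟨k, hk⟩ := mem_iUnion.1 h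
            exact absurd hk (hno k y hy)
          · exact h
        have h0 : volume (Metric.ball x ε) = 0 := measure_mono_null hsubO hnull
        rw [Real.volume_ball, ENNReal.ofReal_eq_zero] at h0
        linarith
    · exact interior_maximal subset_closure hUo
  · rw [hUo.frontier_eq]
    have hsub : closure (⋃ k, E k) \ (⋃ k, E k) ⊆ (⋃ k, frontier (E k)) ∪ ⋂ k, O k := by
      rintro x ⟨hx, hxn⟩
      rcases hcl hx with h | h
      · obtain ⟨k, hk⟩ := mem_iUnion.1 h
        left
        refine mem_iUnion.2 ⟨k, ?_⟩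
        rw [(hEo k).frontier_eq]
        exact ⟨hk, fun h => hxn (mem_iUnion.2 ⟨k, h⟩)⟩
      · exact Or.inr h
    refine measure_mono_null hsub ?_
    rw [measure_union_null_iff, measure_iUnion_null_iff]
    exact ⟨hfr, hnull⟩

end layers

end GB
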